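import Pool.Agent.H343.QF.StQ

set_option autoImplicit false
set_option linter.unusedSectionVars false

/-! # MP_9a852a_al, Q11 : the step theorem -/

namespace Pool.Agent.H638.QF.Q11

open Pool.Agent.TH68 Pool.Agent.Helper97.Hyp Pool.Agent.H343.AN Pool.Agent.H343.QF

lemma ghyp_mono {X : Type*} [PseudoMetricSpace X] {δ δ' : ℝ} (h : GHyp X δ) (hd : δ ≤ δ') :
    GHyp X δ' := by
  intro x y z w
  have := h x y z w
  linarith

lemma good_mono {Γ : Type} [Group Γ] {W : WNorm Γ} {a b : Γ} {δ D δ' D' : ℝ}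
    (h : Good W a b δ D) (h1 : δ ≤ δ') (h2 : D ≤ D') (h3 : δ' ≤ D') : Good W a b δ' D' where
  hyp := ghyp_mono h.hyp h1
  one := le_trans h.one h1
  le := h3
  gen := h.gen
  pow := h.pow
  lb := h.lb
  tf := h.tf
  mal u hu p hp q hq := le_trans (h.mal u hu p hp q hq) h2
  dc := h.dc

/-- the normal closures of conjugate elements agree -/
lemma nc_conj {Γ : Type} [Group Γ] (w x : Γ) :
    Subgroup.normalClosure {w * x * w⁻¹} = Subgroup.normalClosure {x} := by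
  apply le_antisymm
  · apply Subgroup.normalClosure_le_normal
    intro y hy
    rw [Set.mem_singleton_iff] at hy
    subst hy
    exact Subgroup.Normal.conj_mem Subgroup.normalClosure_normal x
      (Subgroup.subset_normalClosure (Set.mem_singleton x)) w
  · apply Subgroup.normalClosure_le_normal
    intro y hy
    rw [Set.mem_singleton_iff] at hy
    subst hy
    have h := Subgroup.Normal.conj_mem (Subgroup.normalClosure_normal (s := {w * y * w⁻¹}))
      (w * y * w⁻¹) (Subgroup.subset_normalClosure (Set.mem_singleton _)) w⁻¹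
    have e : w⁻¹ * (w * y * w⁻¹) * w⁻¹⁻¹ = y := by group
    rwa [e] at h

theorem step : ToolG → S_rcor → S_rdist → S_norm → S_sp → S_q4 → S_q9 → S_q10 → S_step := by
  intro tg hrcor hrdist hnorm hsp hq4 hq9 hq10 Γ _ W a b δ D hg B E κ R h hB hκ hR hh hE N hNn hN
  obtain ⟨n, l0, g, w, hBn, bd, hrho⟩ := hnorm hg B E κ R h hB hκ hR hh hE
  have hyp : HypR W a b δ D (R + 2) n E l0 κ g := ⟨hg, bd⟩
  obtain ⟨Y, hθ, hδ, hS, S, hSN, hρ, h6⟩ := hsp hyp
  obtain ⟨hcor, -⟩ := hrcor hyp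
  obtain ⟨-, -, hP1, hP2⟩ := hrdist hyp
  have hNS : N = S.N := by
    rw [hN, hSN, hrho, nc_conj]
  subst hNS
  -- arithmetic
  have hn13 : (10 : ℝ) ^ 13 ≤ n := by exact_mod_cast bd.hn
  have hE0 : (0 : ℝ) ≤ E := Nat.cast_nonneg _
  have hB1 : (n : ℝ) + 1 ≤ B := by
    rcases hBn with h | h
    · rw [h]; push_cast; linarith
    · rw [h]; push_cast; linarith
  have hB2 : (B : ℝ) ≤ n + 2 := by
    rcases hBn with h | h
    · rw [h]; push_cast; linarith
    · rw [h]; push_cast; linarith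
  have hLL : (LL n E : ℝ) = 3 * (n + 1) * E := by
    unfold LL; push_cast; ring
  have hδ1 := hg.one
  have hδD := hg.le
  have hEbig : D ≤ E := by
    have h1 := bd.hE
    have h2 : D + (R + 2) ≤ 10 ^ 7 * n * (D + (R + 2)) := by
      have h3 : (0 : ℝ) ≤ D + (R + 2) := by linarith
      have h4 : (1 : ℝ) ≤ 10 ^ 7 * n := by linarith
      nlinarith
    linarith
  have hE1 : (1 : ℝ) ≤ E := by linarith
  have hρlow : (B : ℝ) ^ 2 * E / 4 ≤ S.ρ := by
    rw [hρ, hLL]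
    have h1 : (B : ℝ) ^ 2 ≤ (n + 2) ^ 2 := by
      apply pow_le_pow_left₀ (by linarith) hB2
    have h2 : (0 : ℝ) ≤ E * ((n : ℝ) ^ 2 / 2 - 3 * (n + 1) - (n + 2) ^ 2 / 4) := by
      apply mul_nonneg hE0
      nlinarith
    have h3 : (B : ℝ) ^ 2 * E ≤ (n + 2) ^ 2 * E := mul_le_mul_of_nonneg_right h1 hE0
    nlinarith
  have hρup : S.ρ ≤ 2 * (B : ℝ) ^ 2 * E := by
    rw [hρ, hLL]
    have h1 : (n : ℝ) ^ 2 ≤ (B : ℝ) ^ 2 := by
      apply pow_le_pow_left₀ (by linarith); linarith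
    have h3 : (n : ℝ) ^ 2 * E ≤ (B : ℝ) ^ 2 * E := mul_le_mul_of_nonneg_right h1 hE0
    have h4 : (0 : ℝ) ≤ 3 * (n + 1) * E := by positivity
    have h5 : (0 : ℝ) ≤ (B : ℝ) ^ 2 * E := by positivity
    linarith
  have hθ0 : 0 ≤ Y.θ := by
    have := Y.hδ; have := Y.hθ; linarith
  have h5 : (10 : ℝ) ^ 5 * Y.θ ≤ S.ρ := by
    have : (10 : ℝ) ^ 5 * Y.θ ≤ 10 ^ 6 * Y.θ := by nlinarith
    linarith
  have hDρ : D ≤ S.ρ := by
    have h1 : (E : ℝ) ≤ (B : ℝ) ^ 2 * E / 4 := by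
      have : (4 : ℝ) ≤ (B : ℝ) ^ 2 := by nlinarith
      nlinarith
    linarith
  -- projections of lines
  have hHL : HL Y a := by
    intro A v i k
    obtain ⟨x, rfl⟩ := QuotientGroup.mk_surjective A
    have hSne : (SX W (Xr a b n E l0 κ g)).Nonempty := ⟨_, ⟨0, rfl⟩⟩
    have hT : ∀ y : Pt W, y ∈ Y.S (x : Γ ⧸ Subgroup.zpowers (rho a b n E l0 κ g)) ↔
        x⁻¹ • y ∈ SX W (Xr a b n E l0 κ g) := by
      intro y
      rw [hS]
      constructor
      · rintro ⟨j, rfl⟩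
        refine ⟨j, ?_⟩
        rw [smul_pt, inv_mul_cancel_left]
      · rintro ⟨j, hj⟩
        refine ⟨j, ?_⟩
        have : y = x • (x⁻¹ • y) := (smul_inv_smul x y).symm
        rw [this, ← hj, smul_pt]
    have h1 := pd_smul (γ := x) hSne hT (pt W (x⁻¹ * v * a ^ i)) (pt W (x⁻¹ * v * a ^ k))
    have h2 := tg.mb hcor (x⁻¹ * v) i k
    rw [← h1, smul_pt, smul_pt] at h2
    have e : ∀ t : ℤ, x * (x⁻¹ * v * a ^ t) = v * a ^ t := by intro t; group
    rw [e, e] at h2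
    have h3 : (0 : ℝ) ≤ LL n E := Nat.cast_nonneg _
    rw [hθ]
    linarith
  -- stabilisers
  have hst : ∀ (A : Γ ⧸ Subgroup.zpowers (rho a b n E l0 κ g)) (u : Γ), u • A = A → u ∈ S.N := by
    intro A u hu
    obtain ⟨x, rfl⟩ := QuotientGroup.mk_surjective A
    have h1 : ((u * x : Γ) : Γ ⧸ Subgroup.zpowers (rho a b n E l0 κ g)) = (x : Γ ⧸ _) := hu
    rw [eq_comm, QuotientGroup.eq] at h1
    have h2 : Subgroup.zpowers (rho a b n E l0 κ g) ≤ S.N := by
      rw [Subgroup.zpowers_le, hSN]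
      exact Subgroup.subset_normalClosure rfl
    have h3 := S.normal.conj_mem _ (h2 h1) x
    have e : x * (x⁻¹ * (u * x)) * x⁻¹ = u := by group
    rwa [e] at h3
  refine ⟨?_, ?_, ?_⟩
  · intro m hm hm1
    have h1 := hq4 Y S h5 m hm hm1
    linarith
  · intro i j k hm
    rw [hSN] at hm
    exact hq10 hyp B hBn i j k hm
  · intro W' hW'
    have h1 := hq9 Y S h5 a b δ D hg hDρ hHL hst W' hW'
    refine good_mono h1 ?_ ?_ ?_
    · linarith
    · have h2 : (10 : ℝ) ^ 4 * S.ρ ≤ 10 ^ 4 * (2 * (B : ℝ) ^ 2 * E) := by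
        apply mul_le_mul_of_nonneg_left hρup (by norm_num)
      have h5 : (0 : ℝ) ≤ (B : ℝ) ^ 2 * E := by positivity
      linarith
    · have h5 : (0 : ℝ) ≤ (B : ℝ) ^ 2 * E := by positivity
      linarith

end Pool.Agent.H638.QF.Q11
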